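import Mathlib

set_option autoImplicit false

namespace Pool.Agent.Results.MP_74a3a5_co.Counter

open SimpleGraph

/-- `x` and `y` alternate in `w`: after deleting all other letters no two neighbours are equal -/
def Alternate {V : Type} [DecidableEq V] (w : List V) (x y : V) : Prop :=
  (w.filter fun z => z = x ∨ z = y).IsChain (· ≠ ·)

/-- `G` is `k`-word-representable -/
def KRep {V : Type} [DecidableEq V] (G : SimpleGraph V) (k : ℕ) : Prop :=
  ∃ w : List V, (∀ v, w.count v = k) ∧ ∀ x y, x ≠ y → (Alternate w x y ↔ G.Adj x y)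

instance {V : Type} [DecidableEq V] (w : List V) (x y : V) : Decidable (Alternate w x y) := by
  unfold Alternate; infer_instance

theorem rep35 : KRep (cycleGraph 3 □ cycleGraph 5) 3 := by
  refine ⟨[(0, 0), (0, 4), (2, 1), (2, 0), (1, 1), (1, 0), (2, 2), (0, 1), (2, 1), (2, 3), (1, 2), (2, 4), (1, 3), (0, 2), (2, 2), (1, 1), (1, 2), (0, 0), (2, 0), (1, 4), (0, 1), (2, 1), (1, 0), (0, 3), (0, 4), (0, 0), (1, 1), (0, 2), (0, 1), (2, 3), (2, 2), (1, 3), (1, 2), (0, 3), (0, 2), (2, 4), (2, 3), (1, 4), (1, 3), (2, 0), (0, 4), (2, 4), (1, 0), (1, 4), (0, 3)], by decide +kernel, ?_⟩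
  simp only [boxProd_adj]
  decide +kernel

theorem result : ¬ ∀ m n : ℕ, 3 ≤ m → 3 ≤ n → 8 ≤ m + n → ∀ k ∈ ({1, 2, 3} : Set ℕ),
    ¬ KRep (cycleGraph m □ cycleGraph n) k :=
  fun h => h 3 5 (by norm_num) (by norm_num) (by norm_num) 3 (by simp) rep35

end Pool.Agent.Results.MP_74a3a5_co.Counter
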